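import Pool.Agent.Q235.FD.Odd

/-!
# No zero at the edge, nor up to the line `Re s = (n + 1) / 2`, of the L-functions of `H ^ n`, `n` odd, of all products of the curves of
almost all systems of hyperelliptic curves whose coefficients arise from arbitrary integers by changing a few digits

Let `C₁, ..., C_N` be hyperelliptic curves `Y ^ 2 = X ^ (2 g_a + 1) + ... + m (a, 0)` whose coefficients arise from arbitrary
integers by changing a few digits at random positions, let `X = C_{i 1} × ... × C_{i r}` be a product of `r` of them, where `C_a` occurs at
most `2 g_a + 1` times, and let `n` be odd. A zero (or pole) of order `k` of `L(X, s)` at the edge `s₀ = n / 2 + 1` means that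
the sum `∑ b_p log p p ^ (-s)`, `b_p` the trace of Frobenius on `H ^ n`, behaves as `- k / (s - s₀)` there. We show for almost all
choices of the positions that the sum of `w_p b_p log p p ^ (-s)` over the good primes `p` with `y < p ≤ x` is at most
`3 ^ r (1 + n + |s|) y ^ (-δ / 4)`, for all complex `s` with `Re s ≥ (n + 1) / 2 + δ`, all odd `n`, all such products `X`, all `w` in
an arbitrary family of `y ^ B` weight functions with values in `[-1, 1]` (twists by characters, ...) and all `x` from `y` to
`exp (c d)`, where `d` is the number of the digits changed: as far as this can be seen from the primes between `y` and `exp (c d)` there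
is neither a zero nor a pole at the edge, and even in the half plane `Re s > (n + 1) / 2` of the Riemann hypothesis.

The proof uses the law for functions of the residues of such tuples (library `TH894.NE`), Weil's bound (library `H341R2`), the
moments of the traces over the polynomials modulo `p`, and partial summation.
-/

set_option autoImplicit false

namespace Pool.Agent.Results.MP_2b9663_nt.FewDigitOddCohomology

open Finset Pool.Agent.Q235.FD

/-- For all systems of `N ≥ 1` genera `g_a`, numbers `r` of factors, bases `b ≥ 2`, `δ > 0`, `A` and `B`, for almost all systems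
`m` of coefficient vectors obtained by changing a few digits of arbitrary integers (`ForAlmostAllFrom`), uniformly in the family `θ` of
at most `y ^ B` weight functions: `|cohSeries n y x m i w s| ≤ 3 ^ r (1 + n + |s|) y ^ (-δ / 4)` for all `i : Fin r → Fin N` which
take every value `a` at most `2 g_a + 1` times, all odd `n` and all `s` with `Re s ≥ (n + 1) / 2 + δ`. -/
theorem result (N : ℕ) (hN : 1 ≤ N) (g : Fin N → ℕ) (r b : ℕ) (hb : 2 ≤ b) (δ : ℝ) (hδ : 0 < δ) (A B : ℕ) :
    ForAlmostAllFrom (Σ a, Fin (2 * g a + 1)) b A (fun (θ : Weights B) y x m => ∀ w ∈ θ.W y, ∀ i : Fin r → Fin N,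
      (∀ a, (univ.filter (fun k => i k = a)).card ≤ 2 * g a + 1) → ∀ n : ℕ, Odd n → ∀ s : ℂ, (n + 1) / 2 + δ ≤ s.re →
      ‖cohSeries n y x m i w s‖ ≤ 3 ^ r * (1 + n + ‖s‖) * (y : ℝ) ^ (-(δ / 4))) :=
  odd_series (D := fun a => 2 * g a + 1) hN (fun a => ⟨g a, rfl⟩) r hb hδ A B

end Pool.Agent.Results.MP_2b9663_nt.FewDigitOddCohomology
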