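import Pool.Agent.Y722.HS.Main

/-!
# No zero near the edge of absolute convergence for most hypersurfaces of every dimension

`c` is the vector of the coefficients of a form of degree `d` in `n + 1` variables, `|c_m| ≤ H`, and
`L(s) = ∏_p ∏_j (1 - α_{p,j} p^(-s))⁻¹` the L-function of the primitive part of `H^(n-1)` of the hypersurface
in `ℙⁿ` given by the form, with arbitrary Euler factors with at most `b` terms of the expected size at the
primes at which the reduction of the form is singular. The edge of absolute convergence is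
`s₀ = (n - 1) / 2 + 1`. We show that for all `H` and all but a proportion `δ` of the `c` the L-function lies
between `exp (- C / δ)` and `exp (C / δ)` at all points `s₀ + ε`, `1 / log H ≤ ε ≤ 1`, where `C` depends on
`n, d, b` only. The dimension `n - 1` may be even or odd.

Proof.  The mean over `c` of the square of the prime sum up to `H^(1/4)` is the second moment of the
number of points over pairs of primes; the forms vanishing at two given points over `𝔽_p` have the expected
density, and the mean over `c` modulo `p` of the trace of Frobenius is small.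
-/

set_option autoImplicit false

namespace Pool.Agent.Results.MP_2b9663_nt.MostHypersurfaces

open Finset

/-- The monomials of degree `d` in the variables `x_0, …, x_n`, given by their exponents. -/
abbrev Mon (n d : ℕ) : Type := {m : Fin (n + 1) → Fin (d + 1) // ∑ i, (m i : ℕ) = d}

/-- The form with the coefficients `c`. -/
noncomputable def form {n d : ℕ} {R : Type*} [CommSemiring R] (c : Mon n d → R) :
    MvPolynomial (Fin (n + 1)) R :=
  ∑ m, MvPolynomial.C (c m) * ∏ i, MvPolynomial.X i ^ (m.1 i : ℕ)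

/-- The hypersurface `F = 0` in projective space over an algebraically closed field is smooth. -/
def IsSmooth {n : ℕ} {K : Type*} [Field K] (F : MvPolynomial (Fin (n + 1)) K) : Prop :=
  ∀ x : Fin (n + 1) → K, x ≠ 0 → MvPolynomial.eval x F = 0 →
    ∃ i, MvPolynomial.eval x (MvPolynomial.pderiv i F) ≠ 0

/-- The reduction of the vector of coefficients modulo `p`. -/
def red {n d : ℕ} (p : ℕ) (c : Mon n d → ℤ) : Mon n d → ZMod p := fun m => (c m : ZMod p)

/-- The number of the nonzero vectors with coordinates in `R` at which the form vanishes. -/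
noncomputable def cone {n d : ℕ} {R : Type*} [CommRing R] (c : Mon n d → R) : ℕ :=
  Nat.card {x : Fin (n + 1) → R // x ≠ 0 ∧ MvPolynomial.eval x (form c) = 0}

/-- For every prime `p` at which the reduction of the form is smooth the `α p j` have the properties of the
eigenvalues of the Frobenius at `p` on the primitive part of `H^(n-1)`: they have absolute value at most
`p^((n-1)/2)` and their sum is given by the number of points over `𝔽_p` (Grothendieck, Deligne). At the
other primes only the size is restricted. -/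
structure IsFrobenius {n d : ℕ} (b : ℕ) (c : Mon n d → ℤ) (α : ℕ → Fin b → ℂ) : Prop where
  bound : ∀ p : ℕ, p.Prime → ∀ j, ‖α p j‖ ≤ (p : ℝ) ^ (((n : ℝ) - 1) / 2)
  count : ∀ (p : ℕ) [Fact p.Prime],
    IsSmooth (MvPolynomial.map (algebraMap (ZMod p) (AlgebraicClosure (ZMod p))) (form (red p c))) →
      (cone (red p c) : ℂ) = ((p : ℂ) ^ n - 1) + (-1) ^ (n - 1) * ((p : ℂ) - 1) * ∑ j, α p j

/-- The Euler product `∏_p ∏_j (1 - α p j p^{-s})⁻¹`. -/
noncomputable def L {b : ℕ} (α : ℕ → Fin b → ℂ) (s : ℂ) : ℂ :=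
  ∏' p : Nat.Primes, ∏ j, (1 - α p j * ((p : ℕ) : ℂ) ^ (-s))⁻¹

/-- The integer coefficient vectors with coordinates of absolute value at most `H`. -/
noncomputable def box (n d H : ℕ) : Finset (Mon n d → ℤ) :=
  Fintype.piFinset fun _ => Finset.Icc (-(H : ℤ)) H

lemma frob {n d b : ℕ} {c : Mon n d → ℤ} {α : ℕ → Fin b → ℂ} (h : IsFrobenius b c α) :
    Pool.Agent.Y722.HS.IsFrob b c α := ⟨h.bound, fun p hp hs => h.count p hs⟩

theorem result (n d b : ℕ) (hn : 1 ≤ n) (hd : 1 ≤ d) :
    (∀ (c : Mon n d → ℤ) (α : ℕ → Fin b → ℂ), IsFrobenius b c α → ∀ ε : ℝ, 0 < ε →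
      Multipliable fun p : Nat.Primes =>
        ∏ j, (1 - α p j * ((p : ℕ) : ℂ) ^ (-((((n : ℝ) + 1) / 2 + ε : ℝ) : ℂ)))⁻¹) ∧
    ∃ C : ℝ, 0 < C ∧ ∀ H : ℕ, 2 ≤ H → ∀ δ : ℝ, 0 < δ → δ ≤ 1 →
      ∃ E ⊆ box n d H, (E.card : ℝ) ≤ δ * ((box n d H).card : ℝ) ∧
        ∀ c ∈ box n d H \ E, ∀ α : ℕ → Fin b → ℂ, IsFrobenius b c α →
          ∀ ε : ℝ, 1 / Real.log H ≤ ε → ε ≤ 1 →
            Real.exp (-(C / δ)) ≤ ‖L α ((((n : ℝ) + 1) / 2 + ε : ℝ) : ℂ)‖ ∧
            ‖L α ((((n : ℝ) + 1) / 2 + ε : ℝ) : ℂ)‖ ≤ Real.exp (C / δ) := by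
  refine ⟨?_, ?_⟩
  · intro c α h ε hε
    have h1 : Summable fun p : Nat.Primes => Pool.Agent.Y722.HS.gl n α ε p := by
      refine Summable.of_norm_bounded (g := fun p : Nat.Primes => 2 * b * ((p : ℕ) : ℝ) ^ (-1 - ε))
        ((Pool.Agent.Y722.HS.summable_primes hε).mul_left _)
        fun p => Pool.Agent.Y722.HS.gl_le hε.le h.bound p p.2
    have h2 := h1.hasSum.cexp.multipliable
    refine h2.congr fun p => ?_
    simp only [Function.comp, Pool.Agent.Y722.HS.gl, Complex.exp_sum]
    refine Finset.prod_congr rfl fun j _ => ?_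
    rw [Complex.exp_log]
    · rfl
    apply inv_ne_zero
    intro h3
    have h4 : ‖α (p : ℕ) j * ((p : ℕ) : ℂ) ^ (-Pool.Agent.Y722.HS.ss n ε)‖ = 1 := by
      rw [← sub_eq_zero.mp h3, norm_one]
    have h5 := Pool.Agent.Y722.HS.norm_z (ε := ε) h.bound p p.2 j
    have h6 := Pool.Agent.Y722.HS.rpow_le_half hε.le p p.2
    linarith
  · obtain ⟨C, hC, H1⟩ := Pool.Agent.Y722.HS.main n d b hn hd
    refine ⟨C, hC, fun H hH δ hδ hδ1 => ?_⟩
    obtain ⟨E, hE, hcard, h⟩ := H1 H hH δ hδ hδ1
    refine ⟨E, hE, hcard, fun c hc α hα ε h1 h2 => ?_⟩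
    obtain ⟨h3, h4⟩ := h c hc α (frob hα) ε h1 h2
    have e1 : Pool.Agent.Y722.HS.LP α (Pool.Agent.Y722.HS.ss n ε) =
      L α ((((n : ℝ) + 1) / 2 + ε : ℝ) : ℂ) := rfl
    rw [e1] at h3 h4
    have hpos : 0 < ‖L α ((((n : ℝ) + 1) / 2 + ε : ℝ) : ℂ)‖ := norm_pos_iff.mpr h3
    have h5 := abs_le.mp h4
    constructor
    · rw [← Real.le_log_iff_exp_le hpos]; exact h5.1
    · rw [← Real.log_le_iff_le_exp hpos]; exact h5.2

end Pool.Agent.Results.MP_2b9663_nt.MostHypersurfaces
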