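import Mathlib
import Pool.Agent.Q12.VB.Var
import Pool.Agent.Q12.VB.Ord

/-! Non-vanishing at the edge of absolute convergence and the means of the boundary values. -/

set_option autoImplicit false

open Filter Topology MeasureTheory
open Pool.Agent.Q12.VB

namespace Pool.Agent.Results.MP_2b9663_nt.NonVanishingMeans

/-- the point `i/2 + 1 + iτ` of the edge; for `τ = 0` it is `s₀ = i/2 + 1` -/
noncomputable def edge (D : VDatum) (τ : ℝ) : ℂ := ept ((D.i : ℝ) / 2) τ

/-- the angle `|s - edge τ| ≤ C (Re s - (i/2 + 1))` in the half-plane `Re s > i/2 + 1` -/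
def angle (D : VDatum) (τ C : ℝ) : Set ℂ := ang ((D.i : ℝ) / 2) τ C

/-- the mean of `|l|^c` over the interval of length `h` with the centre `τ` -/
noncomputable def mean (l : ℝ → ℂ) (c τ h : ℝ) : ℝ := (∫ u in (τ - h / 2)..(τ + h / 2), ‖l u‖ ^ c) / h

/-- `F` is a meromorphic continuation of the `L`-function to a neighbourhood of `i/2 + 1 + iτ` -/
def Extends (D : VDatum) (τ : ℝ) (F : ℂ → ℂ) : Prop :=
  MeromorphicAt F (edge D τ) ∧ ∀ᶠ s in 𝓝 (edge D τ), (D.i : ℝ) / 2 + 1 < s.re → F s = D.LFun s

/-- the means stay bounded for `h → 0` -/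
def BoundedMeans (l : ℝ → ℂ) (c τ : ℝ) : Prop := ∃ C : ℝ, ∀ᶠ h : ℝ in 𝓝[>] 0, mean l c τ h ≤ C

/-- **Non-vanishing and the means of the boundary values.** Let `X` be a smooth projective variety over a number field
`K`, for example `K = ℚ`, `L(s)` the `L`-function of `H^i(X)`, possibly twisted by a function on the primes, and
`M = [K : ℚ] dim H^i(X)`. There is a function `l` on the real line such that

1. for all `τ` outside a set of Hausdorff dimension `0`, `l(τ) ≠ 0` and `L(s) → l(τ)` as `s → i/2 + 1 + iτ` in any angle;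
2. for all real `c` with `|c| M < 1`, all `τ` and `0 < h ≤ 1/2`, the product of the means of `|l|^c` and `|l|^{-c}` over
  the interval of length `h` with the centre `τ` is at most `(1000 / (1 - |c| M))²`;
3. for all `0 < c < 1/M`, all `τ` and every meromorphic continuation `F` of `L` to a neighbourhood of `i/2 + 1 + iτ`:
  `F` has no zero there if and only if the means of `|l|^{-c}` over the intervals with the centre `τ` stay bounded, and no
  pole there if and only if the means of `|l|^c` stay bounded. -/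
theorem result (D : VDatum) :
    ∃ l : ℝ → ℂ,
      (∃ N : Set ℝ, dimH N = 0 ∧ ∀ τ : ℝ, τ ∉ N → l τ ≠ 0 ∧ ∀ C : ℝ,
        Tendsto D.LFun (𝓝[angle D τ C] (edge D τ)) (𝓝 (l τ))) ∧
      (∀ c : ℝ, |c| * D.deg < 1 → ∀ τ h : ℝ, 0 < h → h ≤ 1 / 2 →
        mean l c τ h * mean l (-c) τ h ≤ (1000 / (1 - |c| * D.deg)) ^ 2) ∧
      ∀ c : ℝ, 0 < c → c * D.deg < 1 → ∀ (τ : ℝ) (F : ℂ → ℂ), Extends D τ F →
        (meromorphicOrderAt F (edge D τ) ≤ 0 ↔ BoundedMeans l (-c) τ) ∧
        (0 ≤ meromorphicOrderAt F (edge D τ) ↔ BoundedMeans l c τ) := by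
  have hF : Fam1 D.LFun ((D.i : ℝ) / 2) D.deg (Pool.Agent.TH339.MP.bb D.be) := var_fam (ι := Unit) fun _ => D
  have hpos : ∀ (τ h : ℝ), 0 < h → 0 < ‖D.LFun (edge D τ + h)‖ := by
    intro τ h hh
    have h2 : D.LFun (edge D τ + h) = Complex.exp _ := hF.pt () τ hh
    rw [h2]
    exact norm_pos_iff.2 (Complex.exp_ne_zero _)
  refine ⟨lb (Pool.Agent.TH339.MP.bb D.be), ⟨_, hF.exc_dim, fun τ hτ => ⟨lb_ne _ _, fun C => ?_⟩⟩,
    fun c hc τ h hh hh2 => ?_, fun c hc hcM τ F hFx => ?_⟩
  · exact hF.angle (j := ()) (fun h => hτ (Set.mem_iUnion.2 ⟨(), h⟩)) C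
  · obtain ⟨-, -, i3⟩ := hF.harnack {()} (fun _ => c) (by simpa using hc) hh hh2 τ
    obtain ⟨-, -, j3⟩ := hF.harnack {()} (fun _ => -c) (by simpa using hc) hh hh2 τ
    simp only [Finset.prod_singleton, Finset.sum_singleton, abs_neg] at i3 j3
    have hA : 0 < 1 - |c| * D.deg := by linarith
    have hL := hpos τ h hh
    have e1 : mean (lb (Pool.Agent.TH339.MP.bb D.be)) c τ h ≤
        1000 / (1 - |c| * D.deg) * ‖D.LFun (edge D τ + h)‖ ^ c := by
      unfold mean
      rw [div_le_iff₀ hh]
      refine i3.trans (le_of_eq ?_)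
      unfold edge
      ring
    have e2 : mean (lb (Pool.Agent.TH339.MP.bb D.be)) (-c) τ h ≤
        1000 / (1 - |c| * D.deg) * (‖D.LFun (edge D τ + h)‖ ^ c)⁻¹ := by
      unfold mean
      rw [div_le_iff₀ hh, ← Real.rpow_neg (norm_nonneg _)]
      refine j3.trans (le_of_eq ?_)
      unfold edge
      ring
    have e3 : 0 ≤ mean (lb (Pool.Agent.TH339.MP.bb D.be)) (-c) τ h := by
      unfold mean
      exact div_nonneg (intervalIntegral.integral_nonneg (by linarith) fun u _ =>
        Real.rpow_nonneg (norm_nonneg _) _) hh.le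
    have hp : 0 < ‖D.LFun (edge D τ + h)‖ ^ c := Real.rpow_pos_of_pos hL c
    calc _ ≤ (1000 / (1 - |c| * D.deg) * ‖D.LFun (edge D τ + h)‖ ^ c) *
          (1000 / (1 - |c| * D.deg) * (‖D.LFun (edge D τ + h)‖ ^ c)⁻¹) :=
          mul_le_mul e1 e2 e3 (by positivity)
      _ = _ := by
          field_simp
  · obtain ⟨hm, hev⟩ := hFx
    have hx : Tendsto (fun h : ℝ => edge D τ + (h : ℂ)) (𝓝[>] 0) (𝓝 (edge D τ)) := by
      have h4 : Continuous fun h : ℝ => (edge D τ + h : ℂ) := by fun_prop
      have h5 := h4.tendsto 0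
      rw [Complex.ofReal_zero, add_zero] at h5
      exact h5.mono_left nhdsWithin_le_nhds
    have hev' : ∀ᶠ h : ℝ in 𝓝[>] 0, F (edge D τ + h) = D.LFun (edge D τ + h) := by
      filter_upwards [hx.eventually hev, self_mem_nhdsWithin] with h h1 hh
      have hh0 : (0 : ℝ) < h := hh
      refine h1 ?_
      have h2 : (edge D τ).re = (D.i : ℝ) / 2 + 1 := ept_re _ _
      rw [Complex.add_re, h2, Complex.ofReal_re]
      linarith
    have hnt : meromorphicOrderAt F (edge D τ) ≠ ⊤ := by
      intro h1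
      rw [meromorphicOrderAt_eq_top_iff] at h1
      have h2 : Tendsto (fun h : ℝ => edge D τ + (h : ℂ)) (𝓝[>] 0) (𝓝[≠] (edge D τ)) := by
        rw [tendsto_nhdsWithin_iff]
        refine ⟨hx, ?_⟩
        filter_upwards [self_mem_nhdsWithin] with h hh
        have hh0 : (0 : ℝ) < h := hh
        intro h6
        have h7 : (h : ℂ) = 0 := by simpa using h6
        exact hh0.ne' (by exact_mod_cast h7)
      obtain ⟨h, g1, g2, g3⟩ := ((h2.eventually h1).and (hev'.and self_mem_nhdsWithin)).exists
      have g4 := hpos τ h g3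
      rw [← g2, g1, norm_zero] at g4
      exact lt_irrefl _ g4
    obtain ⟨m, hmm⟩ : ∃ m : ℤ, meromorphicOrderAt F (edge D τ) = m := by
      cases h7 : meromorphicOrderAt F (edge D τ) with
      | top => exact absurd h7 hnt
      | coe m => exact ⟨m, rfl⟩
    have h1 := bdd_iff hF (c := -c) (by linarith) (by rw [abs_neg, abs_of_pos hc]; exact hcM) hm hev' hmm
    have h2 := bdd_iff hF (c := c) hc.ne' (by rw [abs_of_pos hc]; exact hcM) hm hev' hmm
    rw [hmm]
    constructor
    · refine Iff.trans ?_ h1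
      constructor
      · intro h3
        have h4 : m ≤ 0 := by exact_mod_cast h3
        have h5 : (m : ℝ) ≤ 0 := by exact_mod_cast h4
        nlinarith
      · intro h3
        have h5 : (m : ℝ) ≤ 0 := by
          by_contra h6
          push Not at h6
          nlinarith
        have h4 : m ≤ 0 := by exact_mod_cast h5
        exact_mod_cast h4
    · refine Iff.trans ?_ h2
      constructor
      · intro h3
        have h4 : 0 ≤ m := by exact_mod_cast h3
        have h5 : (0 : ℝ) ≤ m := by exact_mod_cast h4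
        positivity
      · intro h3
        have h5 : (0 : ℝ) ≤ m := by
          by_contra h6
          push Not at h6
          nlinarith
        have h4 : 0 ≤ m := by exact_mod_cast h5
        exact_mod_cast h4

end Pool.Agent.Results.MP_2b9663_nt.NonVanishingMeans
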