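import Pool.Agent.Y139.SM.Fin2

/-!
# The order of the `L`-function at the edge and the orders of its odd tensor powers

`X` is a smooth projective variety over a number field `K`, for example over `K = ℚ`, `H = H^i(X)`, of
dimension `N`, and `χ` an Artin representation of `K`, of dimension `n`.  The tensor power `H^{⊗ r}` is a
part of `H^{ri}(X^r)`; the edge of `L(H^{⊗ r} ⊗ χ, s)` is the point `r i / 2 + 1`.  For `K = ℚ`, `r = 1` and
`χ = 1` it is the point `s₀` of the problem.  Nothing is assumed about the automorphy of `H`.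
The real number `chebC N R r` is the coefficient of `t ^ r` in the polynomial `c N T_R(t / N)`, where `T_R` is
the Chebyshev polynomial of odd degree `R` and `c = ± 1 / R` is such that the coefficient of `t` is `1`.
The definitions are in `Pool.Agent.Y139.SM.Pos` (`chebC`), `Pool.Agent.Y139.SM.GDefs`,
`Pool.Agent.W353.AT.Defs`, `Pool.Agent.W353.EH.Defs` and `Pool.Agent.W353.EF.Defs`.
-/

set_option autoImplicit false

namespace Pool.Agent.Results.MP_2b9663_nt.OddTensorPowers

open NumberField IsDedekindDomain Filter Topology Polynomial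
open Pool.Agent.W353.EF (LFun)
open Pool.Agent.W353.EH (edgePoint size HasOrder)
open Pool.Agent.W353.AT (IsArtin)
open Pool.Agent.Y139.SM (IsPowerSystem chebC)

/-- **Odd tensor powers.**  Write `x_r(ε)` for `log |L(H^{⊗ r} ⊗ χ, r i / 2 + 1 + ε)| / log(1/ε)`, a function
of `ε > 0`; if there is a meromorphic continuation to a neighbourhood of the edge, then the limit is minus
its order there.  Let `R` be odd.
* (No continuation is assumed.)  For every `η > 0` and all small `ε > 0`,
  `|x_1(ε) + ∑ chebC N R r * x_r(ε)| ≤ n N / R + η`, the sum over the odd `r` with `3 ≤ r ≤ R`.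
* If `R > n N` and the `L(H^{⊗ r} ⊗ χ, s)` with odd `r`, `3 ≤ r ≤ R`, have meromorphic continuations to
  neighbourhoods of the edge without zero or pole there, then every meromorphic continuation of
  `L(H ⊗ χ, s)` has neither a zero nor a pole at `i/2 + 1`.  So if `L(H^i(X), s)` vanishes at `s₀`, this is
  seen already by the third, fifth, …, or `R`-th tensor power for some odd `R ≤ N + 2`. -/
theorem result (K : Type) [Field K] [NumberField K] (l d i N : ℕ)
    (X : Set (MvPolynomial (Fin l) (𝓞 K))) (hi : i ≤ 2 * d) (n : ℕ)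
    (χ : Representation ℂ Gal(AlgebraicClosure K/K) (Fin n → ℂ)) (hχ : IsArtin χ) (R : ℕ)
    (hR : Odd R) (B : ℕ → HeightOneSpectrum (𝓞 K) → ℂ[X])
    (hB : ∀ r, Odd r → r ≤ R → IsPowerSystem X d i N r χ (B r)) :
    (∀ r, Odd r → r ≤ R → ∀ᶠ ε : ℝ in 𝓝[>] 0, LFun (B r) (edgePoint (r * i) 0 + ε) ≠ 0) ∧
    (∀ η : ℝ, 0 < η → ∀ᶠ ε : ℝ in 𝓝[>] 0,
      |size (1 * i) 0 (B 1) ε + ∑ r ∈ Finset.range (R + 1) with Odd r ∧ 3 ≤ r,
        chebC N R r * size (r * i) 0 (B r) ε| ≤ n * ((N : ℝ) / R) + η) ∧
    (n * N < R → (∀ r, Odd r → 3 ≤ r → r ≤ R → HasOrder (r * i) 0 (B r) 0) →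
      ∀ k : ℤ, HasOrder (1 * i) 0 (B 1) k → k = 0) :=
  Pool.Agent.Y139.SM.oddPowers hi χ hχ hR B hB

end Pool.Agent.Results.MP_2b9663_nt.OddTensorPowers
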